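import Pool.Agent.Work.MP_1aab6d_third_helper47.Main

set_option autoImplicit false

/-- Let `G` be a countable graph, `t` a function from its vertices to the natural numbers and `r` a
natural number.  There are a partition of the vertices into two classes (the values of `c`) and a
set `S` of vertices of finite degree, any two of which have distance larger than `r` in the graph
formed by the edges which join two vertices of finite degree, such that every vertex of infinite
degree has infinitely many neighbours in the other class, every `v` in `S` has at least `t v`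
neighbours of infinite degree in the other class, and every other vertex `v` of finite degree `d`,
with `p` neighbours of infinite degree, has at least `(d - min p (t v - 1)) / 2` neighbours in the
other class. -/
theorem Pool.Agent.Results.MP_1aab6d_co.OneThird.result {V : Type*} [Countable V]
    (G : SimpleGraph V) (t : V → ℕ) (r : ℕ) :
    ∃ (c : V → Bool) (S : Set V),
      (∀ u : V, (G.neighborSet u).Infinite → {w : V | G.Adj u w ∧ c w ≠ c u}.Infinite) ∧
      (∀ v ∈ S, (G.neighborSet v).Finite ∧
        t v ≤ {w : V | G.Adj v w ∧ (G.neighborSet w).Infinite ∧ c w ≠ c v}.ncard) ∧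
      (∀ v : V, (G.neighborSet v).Finite → v ∉ S → (G.neighborSet v).ncard ≤
        2 * {w : V | G.Adj v w ∧ c w ≠ c v}.ncard +
          min {w : V | G.Adj v w ∧ (G.neighborSet w).Infinite}.ncard (t v - 1)) ∧
      ∀ a ∈ S, ∀ b ∈ S, a ≠ b → ∀ p : (UnfThird.FinPart G).Walk a b, r < p.length := by
  obtain ⟨c, S, h1, h2, h3, h4⟩ := UnfThird.main G t r
  refine ⟨c, S, h1, fun v hv => ⟨?_, (h2 v hv).2⟩, fun v hv hvS => h3 v ?_ hvS, ?_⟩
  · exact Set.not_infinite.1 (h2 v hv).1
  · exact Set.not_infinite.2 hv
  · intro a ha b hb hab p
    by_contra h
    exact h4 a ha b hb hab ⟨p, not_lt.1 h⟩
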