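import Pool.Agent.Work.MP_1aab6d_co_w.Main

set_option autoImplicit false

/-- Let `T` be a set of vertices of finite degree of the countable graph `G` which contains with a
vertex all its neighbours of finite degree, and let `O v` be a set of at most one (at most two, if
the degree of `v` is even) neighbours of infinite degree of `v ∈ T` outside the finite set `X`.
Suppose that every vertex `u ∉ X` of infinite degree belongs to `O v` for all but finitely many of
its neighbours `v ∈ T`; that in the component of each `v ∈ T` either all but finitely many vertices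
`a` satisfy `IN a ⊆ O a`, or the critical vertices induce finite components; and that all but
finitely many vertices of infinite degree have infinitely many neighbours of infinite degree or in
`T`.  Then `G` has an unfriendly partition into two classes. -/
theorem Pool.Agent.Results.MP_1aab6d_co.OwnerAssignment.result {V : Type*} [Countable V]
    (G : SimpleGraph V) (X T : Set V) (O : V → Set V) (hX : X.Finite)
    (hT : ∀ v ∈ T, ¬ Unf.Inf G v)
    (hTc : ∀ v ∈ T, ∀ w : V, G.Adj v w → ¬ Unf.Inf G w → w ∈ T)
    (hO : ∀ v ∈ T, O v ⊆ UnfW.IN G X v)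
    (hO2 : ∀ v ∈ T, (O v).encard ≤ 1 ∨ ((O v).encard ≤ 2 ∧ Even (G.neighborSet v).ncard))
    (h1 : ∀ u : V, Unf.Inf G u → u ∉ X → {v : V | G.Adj u v ∧ v ∈ T ∧ u ∉ O v}.Finite)
    (h2 : ∀ v ∈ T, {a : V | a ∈ Unf.comp G v ∧ ¬ UnfW.IN G X a ⊆ O a}.Finite ∨
      ∀ a ∈ Unf.comp G v, a ∈ UnfW.Crit G T O → (UnfW.Cluster G T O a).Finite)
    (h3 : {u : V | Unf.Inf G u ∧ ¬ {x : V | G.Adj u x ∧ (Unf.Inf G x ∨ x ∈ T)}.Infinite}.Finite) :
    ∃ c : V → Bool, Unf.Unfriendly G c :=
  UnfW.main G X T O hX hT hTc hO hO2 h1 h2 h3
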