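import Pool.Agent.Work.MP_1aab6d_thin_helper61.Union3

/-!
# Unfriendly partitions of countable graphs: small finite degrees
-/

set_option autoImplicit false

namespace Pool.Agent.Results.MP_1aab6d_co.SmallDegrees

variable {V : Type*} (G : SimpleGraph V)

/-- The partition of the vertices given by `c` is unfriendly: every vertex has at least as many
neighbours (as a cardinal) in the other class as in its own class. -/
def Unfriendly (c : V → Bool) : Prop :=
  ∀ v, Cardinal.mk {w : V // G.Adj v w ∧ c w = c v} ≤ Cardinal.mk {w : V // G.Adj v w ∧ c w ≠ c v}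

/-- The vertex `v` has infinitely many neighbours. -/
def Inf (v : V) : Prop := (G.neighborSet v).Infinite

/-- For `x` of finite degree: the component of `x` in the subgraph of `G` induced by the vertices of
finite degree. -/
def comp (x : V) : Set V := {a | Relation.ReflTransGen (fun p q => G.Adj p q ∧ ¬ Inf G q) x a}

/-- For `x` of degree at most four: the component of `x` in the subgraph of `G` induced by the
vertices of degree at most four. -/
def low (x : V) : Set V :=
  {a | Relation.ReflTransGen (fun p q => G.Adj p q ∧ (G.neighborSet q).encard ≤ 4) x a}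

/-- `a` has at most one neighbour in `A`, or `a` has even degree and at most two neighbours
in `A`. -/
def Few (A : Set V) (a : V) : Prop :=
  {b | G.Adj a b ∧ b ∈ A}.encard ≤ 1 ∨
    (Even (G.neighborSet a).ncard ∧ {b | G.Adj a b ∧ b ∈ A}.encard ≤ 2)

/-- The neighbour `y` of the vertex `u` of infinite degree is helpful for `u`, relative to the
finite set `E` of vertices of infinite degree. -/
def Helpful (E : Set V) (u y : V) : Prop :=
  Inf G y ∨
  ((G.neighborSet y).encard ≤ 4 ∧
    ((low G y).Infinite ∨ ∃ w, w ≠ u ∧ Inf G w ∧ ∃ v ∈ low G y, G.Adj w v)) ∨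
  (¬ Inf G y ∧ (∀ w, Inf G w → (comp G y ∩ G.neighborSet w).Finite) ∧
    ((∀ w, Inf G w → ∀ v ∈ comp G y, G.Adj w v → w = u) ∨
      (∀ v ∈ comp G y, (G.neighborSet v).encard ≤ 6 ∨ (G.neighborSet v).encard = 8) ∨
      (∃ s : V → Bool, ∀ a ∈ comp G y, ∀ b, G.Adj a b → b ∉ E → s a ≠ s b) ∨
      ((comp G y).Finite ∧ ((∀ a ∈ comp G y, Few G (E \ {u}) a) ∨
        (∀ a ∈ comp G y, Few G {b | Inf G b ∧ b ∉ E} a)))))

/-- Every finite set `E₀` of vertices of infinite degree is contained in a finite set `E` of such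
vertices relative to which infinitely many neighbours of `u` are helpful for `u`. -/
def Rich (u : V) : Prop :=
  ∀ E₀ : Set V, E₀.Finite → (∀ v ∈ E₀, Inf G v) → ∃ E : Set V, E₀ ⊆ E ∧ E.Finite ∧
    (∀ v ∈ E, Inf G v) ∧ {y | G.Adj u y ∧ Helpful G E u y}.Infinite

lemma comp_eq (x : V) : UnfT.comp G x = comp G x := by
  unfold UnfT.comp comp UnfT.Reach
  have : (fun p q => G.Adj p q ∧ ¬ UnfT.Inf G q ∧ q ∉ (∅ : Set V))
      = (fun p q => G.Adj p q ∧ ¬ Inf G q) := by
    funext p q
    simp only [Set.mem_empty_iff_false, not_false_eq_true, and_true]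
    rfl
  rw [this]

/-- **Theorem.** A countable graph all but finitely many of whose vertices of infinite degree are
rich has an unfriendly partition into two classes. -/
theorem result {V : Type*} [Countable V] (G : SimpleGraph V)
    (h : {u : V | Inf G u ∧ ¬ Rich G u}.Finite) : ∃ c : V → Bool, Unfriendly G c := by
  refine UnfD.unfriendly_of_hlp G (h.subset ?_)
  rintro u ⟨hu, hn⟩
  refine ⟨hu, fun hr => hn fun E₀ h1 h2 => ?_⟩
  obtain ⟨E, g1, g2, g3, g4⟩ := hr E₀ h1 h2
  refine ⟨E, g1, g2, g3, g4.mono ?_⟩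
  rintro y ⟨hy, h⟩
  refine ⟨hy, ?_⟩
  rcases h with h | h | ⟨k1, k2, k3 | k3 | k3 | k3⟩
  · exact Or.inl (Or.inl h)
  · exact Or.inl (Or.inr (Or.inr h))
  · refine Or.inl (Or.inr (Or.inl ⟨k1, ?_, ?_⟩))
    · rintro w ⟨hw, a, ha, haw⟩
      rw [comp_eq] at ha
      exact k3 w hw a ha haw.symm
    · rw [comp_eq]; exact k2 u hu
  · refine Or.inr (Or.inl ⟨k1, ?_, ?_⟩) <;> rw [comp_eq]
    · exact k3
    · exact k2
  · refine Or.inr (Or.inr (Or.inl ⟨k1, ?_, ?_⟩)) <;> rw [comp_eq]
    · exact k2
    · exact k3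
  · refine Or.inr (Or.inr (Or.inr ⟨k1, ?_, ?_⟩)) <;> rw [comp_eq]
    · exact k3.1
    · exact k3.2

end Pool.Agent.Results.MP_1aab6d_co.SmallDegrees
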