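import Pool.Agent.Work.MP_1aab6d_tree_helper61.Main

set_option autoImplicit false

/-- Let `G` be a countable graph, `X` a finite set of vertices, `Q` a set of vertices of infinite
degree each of which is `Free` or has infinitely many neighbours in `Q`, let `W` be a union of finite
components of the graph induced by the vertices of finite degree, and let `H` be a subgraph of `G`
containing all edges of `G` which meet `W`.  Let `r` be an injective function to the natural numbers
on the set `P` of vertices of infinite degree outside `X` and `Q`.  If each `v` in `P` has infinitely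
many `H`-neighbours in pairwise different components of the subgraph of `H` induced by `W` and the
vertices of `P` of larger value than `v`, then `G` has an unfriendly partition into two classes. -/
theorem Pool.Agent.Results.MP_1aab6d_co.StarSequence.result {V : Type*} [Countable V]
    (G H : SimpleGraph V) (X Q W : Set V) (r : V → ℕ) (hX : X.Finite)
    (hQ : ∀ q ∈ Q, UnfT.Inf G q ∧ (UnfT.Free G q ∨ {y : V | G.Adj q y ∧ y ∈ Q}.Infinite))
    (hW : ∀ x ∈ W, ¬ UnfT.Inf G x ∧ (UnfT.comp G x).Finite ∧ UnfT.comp G x ⊆ W)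
    (hH : H ≤ G) (hHW : ∀ a ∈ W, ∀ b : V, G.Adj a b → H.Adj a b)
    (hr : Set.InjOn r {v : V | UnfT.Inf G v ∧ v ∉ X ∧ v ∉ Q})
    (hN : ∀ v : V, UnfT.Inf G v → v ∉ X → v ∉ Q → ∃ N : Set V, N.Infinite ∧
      (∀ y ∈ N, H.Adj v y ∧
        y ∈ UnfS.Rest {v : V | UnfT.Inf G v ∧ v ∉ X ∧ v ∉ Q} W r (r v)) ∧
      ∀ a ∈ N, ∀ b ∈ N, a ≠ b →
        ¬ UnfS.Link H (UnfS.Rest {v : V | UnfT.Inf G v ∧ v ∉ X ∧ v ∉ Q} W r (r v)) a b) :
    ∃ c : V → Bool, UnfT.Unfriendly G c :=
  UnfS.main G H X Q W r hX hQ hW hH hHW hr hN
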